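import Pool.Agent.W787.QC.Defs

/-!
# Project QC: mass of a bubble
-/

set_option autoImplicit false

open MeasureTheory Set Metric Filter Topology Real

noncomputable section

namespace Pool.Agent.W376.QC

open Pool.Agent.W787.QC

/-- the standard bubble -/
def f0 (r : ℝ) : ℝ := 96 / (1 + r ^ 2) ^ 4

/-- antiderivative of `r ^ 3 * f0 r` -/
def G0 (r : ℝ) : ℝ := 16 * ((1 + r ^ 2) ^ 3)⁻¹ - 24 * ((1 + r ^ 2) ^ 2)⁻¹

theorem hG0 (r : ℝ) : HasDerivAt G0 (r ^ 3 * f0 r) r := by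
  have hpos : 0 < 1 + r ^ 2 := by positivity
  have h1 : HasDerivAt (fun r : ℝ => 1 + r ^ 2) (2 * r) r := by
    have := (hasDerivAt_pow 2 r).const_add 1
    simpa using this
  have h3 := ((h1.pow 3).inv (pow_ne_zero 3 hpos.ne')).const_mul 16
  have h2 := ((h1.pow 2).inv (pow_ne_zero 2 hpos.ne')).const_mul 24
  refine (h3.sub h2).congr_deriv ?_
  unfold f0
  simp only [Pi.pow_apply]
  field_simp
  ring

theorem lim_G0 : Tendsto G0 atTop (𝓝 0) := by
  have h0 : Tendsto (fun r : ℝ => 1 + r ^ 2) atTop atTop :=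
    tendsto_atTop_add_const_left _ _ (tendsto_pow_atTop (by norm_num))
  have h1 : ∀ n : ℕ, n ≠ 0 → Tendsto (fun r : ℝ => ((1 + r ^ 2) ^ n)⁻¹) atTop (𝓝 0) := by
    intro n hn
    exact tendsto_inv_atTop_zero.comp ((tendsto_pow_atTop hn).comp h0)
  have h2 := ((h1 3 (by norm_num)).const_mul 16).sub ((h1 2 (by norm_num)).const_mul 24)
  show Tendsto (fun r : ℝ => 16 * ((1 + r ^ 2) ^ 3)⁻¹ - 24 * ((1 + r ^ 2) ^ 2)⁻¹) atTop (𝓝 0)
  simpa using h2

theorem int1 : IntegrableOn (fun r : ℝ => r ^ 3 * f0 r) (Ioi 0) ∧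
    ∫ r in Ioi (0 : ℝ), r ^ 3 * f0 r = 8 := by
  have hpos : ∀ r ∈ Ioi (0 : ℝ), 0 ≤ r ^ 3 * f0 r := by
    intro r hr
    have : (0 : ℝ) < r := hr
    unfold f0
    positivity
  constructor
  · exact integrableOn_Ioi_deriv_of_nonneg' (fun r _ => hG0 r) hpos lim_G0
  · rw [integral_Ioi_of_hasDerivAt_of_nonneg' (fun r _ => hG0 r) hpos lim_G0]
    unfold G0
    norm_num

theorem int2 : Integrable (fun z : E => f0 ‖z‖) ∧ ∫ z : E, f0 ‖z‖ = 16 * π ^ 2 := by
  have hdim : Module.finrank ℝ E = 4 := by simp [E]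
  constructor
  · rw [integrable_fun_norm_addHaar (volume : Measure E) (f := f0)]
    rw [hdim]
    simpa using int1.1
  · rw [integral_fun_norm_addHaar (volume : Measure E) f0, hdim]
    have hv : (volume : Measure E).real (ball 0 1) = π ^ 2 / 2 := by
      unfold Measure.real
      rw [EuclideanSpace.volume_ball]
      simp only [Fintype.card_fin, ENNReal.ofReal_one, one_pow, one_mul]
      have h1 : √π ^ 4 = π ^ 2 := by
        have : √π ^ 2 = π := Real.sq_sqrt Real.pi_pos.le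
        calc √π ^ 4 = (√π ^ 2) ^ 2 := by ring
          _ = _ := by rw [this]
      have h2 : Real.Gamma (((4 : ℕ) : ℝ) / 2 + 1) = 2 := by
        have : (((4 : ℕ) : ℝ) / 2 + 1) = ((2 : ℕ) : ℝ) + 1 := by norm_num
        rw [this, Real.Gamma_nat_eq_factorial]
        norm_num [Nat.factorial]
      rw [h1, h2, ENNReal.toReal_ofReal (by positivity)]
    rw [hv]
    have h3 : ∫ y in Ioi (0 : ℝ), y ^ (4 - 1) • f0 y = 8 := by
      simpa using int1.2
    rw [h3]
    simp only [smul_eq_mul, nsmul_eq_mul]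
    push_cast
    ring

theorem scal (φ : E → ℝ) (hφ : Integrable φ) (s : ℝ) (hs : 0 < s) (p : E) :
    Integrable (fun y : E => (s ^ 4)⁻¹ * φ (s⁻¹ • (y - p))) ∧
    ∫ y : E, (s ^ 4)⁻¹ * φ (s⁻¹ • (y - p)) = ∫ z, φ z := by
  have hdim : Module.finrank ℝ E = 4 := by simp [E]
  constructor
  · exact ((hφ.comp_smul (inv_ne_zero hs.ne')).comp_sub_right p).const_mul _
  · rw [integral_const_mul, integral_sub_right_eq_self (fun y : E => φ (s⁻¹ • y)) p,
      Measure.integral_comp_inv_smul_of_nonneg (volume : Measure E) φ hs.le, hdim, smul_eq_mul,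
      ← mul_assoc, inv_mul_cancel₀ (by positivity), one_mul]

theorem bub (s : ℝ) (hs : 0 < s) (p y : E) :
    96 * s ^ 4 / (s ^ 2 + ‖y - p‖ ^ 2) ^ 4 = (s ^ 4)⁻¹ * f0 ‖s⁻¹ • (y - p)‖ := by
  unfold f0
  rw [norm_smul, Real.norm_eq_abs, abs_of_pos (inv_pos.mpr hs)]
  have h1 : s ^ 2 + ‖y - p‖ ^ 2 = s ^ 2 * (1 + (s⁻¹ * ‖y - p‖) ^ 2) := by
    field_simp
  rw [h1]
  have h2 : 0 < 1 + (s⁻¹ * ‖y - p‖) ^ 2 := by positivity
  set A := 1 + (s⁻¹ * ‖y - p‖) ^ 2
  field_simp

theorem mass : S_MASS := by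
  constructor
  · intro s p hs
    have h := scal (fun z => f0 ‖z‖) int2.1 s hs p
    have he : (fun y : E => 96 * s ^ 4 / (s ^ 2 + ‖y - p‖ ^ 2) ^ 4) =
        fun y : E => (s ^ 4)⁻¹ * f0 ‖s⁻¹ • (y - p)‖ := funext fun y => bub s hs p y
    rw [he]
    exact ⟨h.1, h.2.trans int2.2⟩
  · intro ε hε
    have hlim : Tendsto (fun n : ℕ => ∫ z in ball (0 : E) n, f0 ‖z‖) atTop
        (𝓝 (∫ z in ⋃ n : ℕ, ball (0 : E) n, f0 ‖z‖)) := by
      apply tendsto_setIntegral_of_monotone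
      · intro n; exact measurableSet_ball
      · intro a b hab
        exact ball_subset_ball (by exact_mod_cast hab)
      · exact int2.1.integrableOn
    rw [iUnion_ball_nat, setIntegral_univ, int2.2] at hlim
    have hev := hlim.eventually_const_lt (show 16 * π ^ 2 - ε < 16 * π ^ 2 by linarith)
    obtain ⟨N, hN⟩ := (hev.and (eventually_ge_atTop 1)).exists
    obtain ⟨hN1, hN2⟩ := hN
    have hNpos : (0 : ℝ) < N := by exact_mod_cast hN2
    refine ⟨1 / N, by positivity, ?_⟩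
    intro s hs hsN p
    have hcomp : ∀ y : E, (s ^ 4)⁻¹ * (ball (0 : E) N).indicator (fun z => f0 ‖z‖) (s⁻¹ • (y - p)) ≤
        (ball p 1).indicator (fun y => 96 * s ^ 4 / (s ^ 2 + ‖y - p‖ ^ 2) ^ 4) y := by
      intro y
      by_cases hy : s⁻¹ • (y - p) ∈ ball (0 : E) N
      · have hy' : y ∈ ball p 1 := by
          rw [mem_ball_zero_iff, norm_smul, Real.norm_eq_abs, abs_of_pos (inv_pos.mpr hs)] at hy
          rw [mem_ball, dist_eq_norm]
          rw [inv_mul_lt_iff₀ hs] at hy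
          rw [lt_div_iff₀ hNpos] at hsN
          linarith
        rw [indicator_of_mem hy, indicator_of_mem hy', bub s hs p y]
      · rw [indicator_of_notMem hy, mul_zero]
        apply indicator_nonneg
        intro z _
        positivity
    have h1 := scal ((ball (0 : E) N).indicator (fun z => f0 ‖z‖))
      (int2.1.indicator measurableSet_ball) s hs p
    have h2 := scal (fun z => f0 ‖z‖) int2.1 s hs p
    have he : (fun y : E => 96 * s ^ 4 / (s ^ 2 + ‖y - p‖ ^ 2) ^ 4) =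
        fun y : E => (s ^ 4)⁻¹ * f0 ‖s⁻¹ • (y - p)‖ := funext fun y => bub s hs p y
    have h3 : Integrable ((ball p 1).indicator
        (fun y => 96 * s ^ 4 / (s ^ 2 + ‖y - p‖ ^ 2) ^ 4)) := by
      rw [he]
      exact h2.1.indicator measurableSet_ball
    have h4 := integral_mono h1.1 h3 hcomp
    rw [h1.2, integral_indicator measurableSet_ball, integral_indicator measurableSet_ball] at h4
    linarith

end Pool.Agent.W376.QC
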